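import Mathlib

/-!
# Zero-one law for absolute convergence of the stable supremum series

For every irrational `α ∈ (0,1) ∪ (1,2)` the set of `ρ ∈ (0,1)` at which the double series
converges absolutely (for every `x > 0`) has Lebesgue measure `0` or `1`.

Idea: absolute convergence for all `x > 0` does not see factors `exp (O (m + n))`.  The products
of sines in the numerators are at least `exp (- C(ρ) (m + n))` for almost every `ρ`, by Hopf's
maximal ergodic inequality for the rotation and the integrable function `- log |sin (π x)|`; the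
dependence of the Gamma factors on `ρ` is also at most exponential.
-/

open MeasureTheory Set

namespace Pool.Agent.Results.MP_8ec8f8_pr.ZeroOneLaw

/-- Birkhoff sums along a rotation. -/
noncomputable def bs (g : ℝ → ℝ) (θ : ℝ) (k : ℕ) (x : ℝ) : ℝ :=
  ∑ j ∈ Finset.range k, g (x + j * θ)

/-- The maximum of the first `N` Birkhoff sums and `0`. -/
noncomputable def mx (g : ℝ → ℝ) (θ : ℝ) : ℕ → ℝ → ℝ
  | 0, _ => 0
  | N + 1, x => max 0 (g x + mx g θ N (x + θ))

lemma bs_succ (g : ℝ → ℝ) (θ : ℝ) (k : ℕ) (x : ℝ) :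
    bs g θ (k + 1) x = g x + bs g θ k (x + θ) := by
  unfold bs
  rw [Finset.sum_range_succ', add_comm]
  congr 1
  · simp
  · apply Finset.sum_congr rfl
    intro j _
    congr 1
    push_cast
    ring

lemma mx_nonneg (g : ℝ → ℝ) (θ : ℝ) (N : ℕ) (x : ℝ) : 0 ≤ mx g θ N x := by
  cases N with
  | zero => simp [mx]
  | succ N => simp [mx]

lemma mx_mono (g : ℝ → ℝ) (θ : ℝ) (N : ℕ) : ∀ x, mx g θ N x ≤ mx g θ (N + 1) x := by
  induction N with
  | zero => intro x; exact mx_nonneg g θ 1 x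
  | succ N ih =>
    intro x
    have := ih (x + θ)
    show max 0 (g x + mx g θ N (x + θ)) ≤ max 0 (g x + mx g θ (N + 1) (x + θ))
    exact max_le_max le_rfl (by linarith)

lemma mx_mono' (g : ℝ → ℝ) (θ : ℝ) (x : ℝ) : Monotone (fun N => mx g θ N x) :=
  monotone_nat_of_le_succ (fun N => mx_mono g θ N x)

lemma bs_le_mx (g : ℝ → ℝ) (θ : ℝ) (k : ℕ) : ∀ x, bs g θ k x ≤ mx g θ k x := by
  induction k with
  | zero => intro x; simp [bs, mx]
  | succ k ih =>
    intro x
    rw [bs_succ]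
    refine le_trans ?_ (le_max_right _ _)
    have := ih (x + θ)
    linarith

lemma mx_periodic {g : ℝ → ℝ} (hg : Function.Periodic g 1) (θ : ℝ) (N : ℕ) :
    Function.Periodic (mx g θ N) 1 := by
  induction N with
  | zero => intro x; simp [mx]
  | succ N ih =>
    intro x
    show max 0 (g (x + 1) + mx g θ N (x + 1 + θ)) = max 0 (g x + mx g θ N (x + θ))
    rw [hg x, show x + 1 + θ = (x + θ) + 1 by ring, ih (x + θ)]

lemma mx_measurable {g : ℝ → ℝ} (hg : Measurable g) (θ : ℝ) (N : ℕ) :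
    Measurable (mx g θ N) := by
  induction N with
  | zero => exact measurable_const
  | succ N ih =>
    exact measurable_const.max (hg.add (ih.comp (measurable_id.add_const θ)))

lemma mx_integrable {g : ℝ → ℝ} (hg : ∀ a b : ℝ, IntervalIntegrable g volume a b) (θ : ℝ) (N : ℕ) :
    ∀ a b : ℝ, IntervalIntegrable (mx g θ N) volume a b := by
  induction N with
  | zero => 
    intro a b
    exact intervalIntegrable_const
  | succ N ih =>
    intro a b
    have h1 : IntervalIntegrable (fun x => mx g θ N (x + θ)) volume a b := by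
      have := (ih (a + θ) (b + θ)).comp_add_right θ
      simpa using this
    have h2 := (hg a b).add h1
    have h3 : IntervalIntegrable (fun x => max (0:ℝ) (g x + mx g θ N (x + θ))) volume a b := by
      have h0 : IntervalIntegrable (fun _ : ℝ => (0:ℝ)) volume a b := intervalIntegrable_const
      exact ⟨h0.1.sup h2.1, h0.2.sup h2.2⟩
    exact h3

lemma key_pointwise (g : ℝ → ℝ) (θ : ℝ) (N : ℕ) (x : ℝ) :
    mx g θ N x - mx g θ N (x + θ) ≤ {x | 0 < mx g θ N x}.indicator g x := by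
  cases N with
  | zero => simp [mx]
  | succ N =>
    by_cases h : 0 < mx g θ (N + 1) x
    · rw [indicator_of_mem (by exact h)]
      have h1 : mx g θ (N + 1) x = g x + mx g θ N (x + θ) := by
        have h2 : mx g θ (N + 1) x = max 0 (g x + mx g θ N (x + θ)) := rfl
        rw [h2] at h ⊢
        rcases lt_max_iff.mp h with h3 | h3
        · exact absurd h3 (lt_irrefl _)
        · exact max_eq_right h3.le
      have := mx_mono g θ N (x + θ)
      linarith
    · rw [indicator_of_notMem (by exact h)]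
      have h1 : mx g θ (N + 1) x = 0 := le_antisymm (not_lt.mp h) (mx_nonneg _ _ _ _)
      have := mx_nonneg g θ (N + 1) (x + θ)
      linarith

/-- Hopf's maximal ergodic inequality for a rotation of the circle. -/
lemma maximal_ineq {g : ℝ → ℝ} (hp : Function.Periodic g 1) (hm : Measurable g)
    (hg : ∀ a b : ℝ, IntervalIntegrable g volume a b) (θ : ℝ) (N : ℕ) :
    0 ≤ ∫ x in (0:ℝ)..1, {x | 0 < mx g θ N x}.indicator g x := by
  have hS : MeasurableSet {x | 0 < mx g θ N x} :=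
    measurableSet_lt measurable_const (mx_measurable hm θ N)
  have h1 : ∫ x in (0:ℝ)..1, mx g θ N (x + θ) = ∫ x in (0:ℝ)..1, mx g θ N x := by
    rw [intervalIntegral.integral_comp_add_right (fun x => mx g θ N x) θ]
    have := (mx_periodic hp θ N).intervalIntegral_add_eq θ 0
    rw [zero_add, add_comm θ 1] at *
    simpa using this
  have hi1 := mx_integrable hg θ N 0 1
  have hi2 : IntervalIntegrable (fun x => mx g θ N (x + θ)) volume 0 1 := by
    have := (mx_integrable hg θ N (0 + θ) (1 + θ)).comp_add_right θ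
    simpa using this
  have hi3 : IntervalIntegrable ({x | 0 < mx g θ N x}.indicator g) volume 0 1 :=
    ⟨(hg 0 1).1.indicator hS, (hg 0 1).2.indicator hS⟩
  calc (0:ℝ) = (∫ x in (0:ℝ)..1, mx g θ N x) - ∫ x in (0:ℝ)..1, mx g θ N (x + θ) := by
        rw [h1]; ring
    _ = ∫ x in (0:ℝ)..1, (mx g θ N x - mx g θ N (x + θ)) := by
        rw [intervalIntegral.integral_sub hi1 hi2]
    _ ≤ ∫ x in (0:ℝ)..1, {x | 0 < mx g θ N x}.indicator g x := by
        apply intervalIntegral.integral_mono_on zero_le_one (hi1.sub hi2) hi3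
        intro x _
        exact key_pointwise g θ N x


/-- for `f ≥ 0` the set where some Birkhoff average exceeds `l` has measure at most `∫ f / l`. -/
lemma measure_bad_le {f : ℝ → ℝ} (hp : Function.Periodic f 1) (hm : Measurable f)
    (hf : ∀ a b : ℝ, IntervalIntegrable f volume a b) (h0 : ∀ x, 0 ≤ f x) (θ : ℝ) (l : ℝ)
    (hl : 0 < l) :
    volume ({x | ∃ k : ℕ, l * k < bs f θ k x} ∩ Ioc 0 1) ≤
      ENNReal.ofReal ((∫ x in (0:ℝ)..1, f x) / l) := by
  set g : ℝ → ℝ := fun x => f x - l with hgdef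
  have hgp : Function.Periodic g 1 := by intro x; simp [hgdef, hp x]
  have hgm : Measurable g := hm.sub measurable_const
  have hgi : ∀ a b : ℝ, IntervalIntegrable g volume a b :=
    fun a b => (hf a b).sub intervalIntegrable_const
  have hbs : ∀ k x, bs g θ k x = bs f θ k x - l * k := by
    intro k x
    simp only [bs, hgdef, Finset.sum_sub_distrib, Finset.sum_const, Finset.card_range,
      nsmul_eq_mul]
    ring
  have hsub : {x | ∃ k : ℕ, l * k < bs f θ k x} ∩ Ioc 0 1 ⊆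
      ⋃ N : ℕ, ({x | 0 < mx g θ N x} ∩ Ioc 0 1) := by
    rintro x ⟨⟨k, hk⟩, hx⟩
    refine mem_iUnion.2 ⟨k, ?_, hx⟩
    have h1 := bs_le_mx g θ k x
    rw [hbs] at h1
    show 0 < mx g θ k x
    linarith
  refine (measure_mono hsub).trans ?_
  have hmono : Monotone (fun N : ℕ => {x | 0 < mx g θ N x} ∩ Ioc (0:ℝ) 1) := by
    intro a b hab x hx
    exact ⟨lt_of_lt_of_le hx.1 (mx_mono' g θ x hab), hx.2⟩
  rw [hmono.measure_iUnion]
  refine iSup_le fun N => ?_
  have hS : MeasurableSet {x | 0 < mx g θ N x} :=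
    measurableSet_lt measurable_const (mx_measurable hgm θ N)
  have h1 := maximal_ineq hgp hgm hgi θ N
  have hif : IntervalIntegrable ({x | 0 < mx g θ N x}.indicator f) volume 0 1 :=
    ⟨(hf 0 1).1.indicator hS, (hf 0 1).2.indicator hS⟩
  have hil : IntervalIntegrable ({x | 0 < mx g θ N x}.indicator (fun _ => l)) volume 0 1 :=
    ⟨(intervalIntegrable_const (c := l) (a := 0) (b := 1)).1.indicator hS,
      (intervalIntegrable_const (c := l) (a := 0) (b := 1)).2.indicator hS⟩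
  have h2 : ∫ x in (0:ℝ)..1, {x | 0 < mx g θ N x}.indicator g x =
      (∫ x in (0:ℝ)..1, {x | 0 < mx g θ N x}.indicator f x) -
        ∫ x in (0:ℝ)..1, {x | 0 < mx g θ N x}.indicator (fun _ => l) x := by
    rw [← intervalIntegral.integral_sub hif hil]
    congr 1
    ext x
    by_cases hx : x ∈ {x | 0 < mx g θ N x}
    · rw [indicator_of_mem hx, indicator_of_mem hx, indicator_of_mem hx]
    · rw [indicator_of_notMem hx, indicator_of_notMem hx, indicator_of_notMem hx, sub_zero]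
  have h3 : ∫ x in (0:ℝ)..1, {x | 0 < mx g θ N x}.indicator (fun _ => l) x =
      l * (volume ({x | 0 < mx g θ N x} ∩ Ioc 0 1)).toReal := by
    rw [intervalIntegral.integral_of_le zero_le_one, integral_indicator hS,
      setIntegral_const, smul_eq_mul, mul_comm, measureReal_def, Measure.restrict_apply hS]
  have h4 : ∫ x in (0:ℝ)..1, {x | 0 < mx g θ N x}.indicator f x ≤ ∫ x in (0:ℝ)..1, f x := by
    apply intervalIntegral.integral_mono_on zero_le_one hif (hf 0 1)
    intro x _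
    exact indicator_le_self' (fun _ _ => h0 x) x
  have h5 : l * (volume ({x | 0 < mx g θ N x} ∩ Ioc 0 1)).toReal ≤ ∫ x in (0:ℝ)..1, f x := by
    rw [h2, h3] at h1
    linarith
  have hfin : volume ({x | 0 < mx g θ N x} ∩ Ioc (0:ℝ) 1) ≠ ⊤ :=
    ((measure_mono inter_subset_right).trans_lt (by simp)).ne
  rw [← ENNReal.ofReal_toReal hfin]
  apply ENNReal.ofReal_le_ofReal
  rw [le_div_iff₀ hl]
  linarith

lemma bs_periodic {f : ℝ → ℝ} (hp : Function.Periodic f 1) (θ : ℝ) (k : ℕ) :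
    Function.Periodic (bs f θ k) 1 := by
  intro x
  unfold bs
  apply Finset.sum_congr rfl
  intro j _
  rw [show x + 1 + j * θ = (x + j * θ) + 1 by ring, hp]

/-- Birkhoff sums of a nonnegative integrable function over a rotation grow at most linearly,
for almost every starting point. -/
lemma ae_linear {f : ℝ → ℝ} (hp : Function.Periodic f 1) (hm : Measurable f)
    (hf : ∀ a b : ℝ, IntervalIntegrable f volume a b) (h0 : ∀ x, 0 ≤ f x) (θ : ℝ) :
    ∀ᵐ x : ℝ, ∃ C : ℝ, 0 ≤ C ∧ ∀ k : ℕ, bs f θ k x ≤ C * k := by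
  set B : Set ℝ := {x | ¬ ∃ C : ℝ, 0 ≤ C ∧ ∀ k : ℕ, bs f θ k x ≤ C * k} with hB
  have hI : 0 ≤ ∫ x in (0:ℝ)..1, f x := intervalIntegral.integral_nonneg zero_le_one fun x _ => h0 x
  have h1 : volume (B ∩ Ioc 0 1) = 0 := by
    have h2 : ∀ l : ℕ, volume (B ∩ Ioc 0 1) ≤
        ENNReal.ofReal ((∫ x in (0:ℝ)..1, f x) / ((l:ℝ) + 1)) := by
      intro l
      refine le_trans (measure_mono ?_) (measure_bad_le hp hm hf h0 θ ((l:ℝ) + 1) (by positivity))
      rintro x ⟨hx, hx1⟩
      refine ⟨?_, hx1⟩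
      by_contra hcon
      apply hx
      refine ⟨(l:ℝ) + 1, by positivity, ?_⟩
      intro k
      by_contra hk
      exact hcon ⟨k, not_le.mp hk⟩
    have h3 : Filter.Tendsto (fun l : ℕ => ENNReal.ofReal ((∫ x in (0:ℝ)..1, f x) / ((l:ℝ) + 1)))
        Filter.atTop (nhds 0) := by
      rw [← ENNReal.ofReal_zero]
      apply ENNReal.tendsto_ofReal
      have h4 := tendsto_one_div_add_atTop_nhds_zero_nat (𝕜 := ℝ)
      have h5 := h4.const_mul (∫ x in (0:ℝ)..1, f x)
      simpa [div_eq_mul_inv] using h5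
    exact le_antisymm (ge_of_tendsto' h3 h2) bot_le
  have hBp : ∀ x, ∀ n : ℤ, x ∈ B → x + n ∈ B := by
    intro x n hx
    have h6 : ∀ k, bs f θ k (x + n) = bs f θ k x := by
      intro k
      have := (bs_periodic hp θ k).int_mul n x
      simpa using this
    simp only [hB, Set.mem_ofPred_eq] at hx ⊢
    intro hcon
    apply hx
    obtain ⟨C, hC, h7⟩ := hcon
    exact ⟨C, hC, fun k => by rw [← h6 k]; exact h7 k⟩
  have hcov : B ⊆ ⋃ n : ℤ, (fun x : ℝ => x + n) ⁻¹' (B ∩ Ioc 0 1) := by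
    intro x hx
    refine mem_iUnion.2 ⟨-(⌈x⌉ - 1), hBp x _ hx, ?_⟩
    push_cast
    constructor
    · have := Int.ceil_lt_add_one x
      linarith
    · have := Int.le_ceil x
      linarith
  show volume B = 0
  refine measure_mono_null hcov (measure_iUnion_null fun n => ?_)
  rw [measure_preimage_add_right]
  exact h1

/-- `-log |sin (π x)|` -/
noncomputable def ls (x : ℝ) : ℝ := -Real.log (|Real.sin (Real.pi * x)|)

lemma ls_periodic : Function.Periodic ls 1 := by
  intro x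
  unfold ls
  rw [show Real.pi * (x + 1) = Real.pi * x + Real.pi by ring, Real.sin_add_pi, abs_neg]

lemma ls_measurable : Measurable ls := by
  unfold ls
  have h : Continuous fun x : ℝ => |Real.sin (Real.pi * x)| := by fun_prop
  exact (Real.measurable_log.comp h.measurable).neg

lemma ls_nonneg (x : ℝ) : 0 ≤ ls x := by
  unfold ls
  have := Real.log_nonpos (abs_nonneg (Real.sin (Real.pi * x))) (Real.abs_sin_le_one _)
  linarith

lemma ls_integrable (a b : ℝ) : IntervalIntegrable ls volume a b := by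
  have h := (intervalIntegrable_log_sin (a := Real.pi * a) (b := Real.pi * b)).comp_mul_left
    (c := Real.pi)
  have hpi := Real.pi_ne_zero
  rw [mul_div_cancel_left₀ _ hpi, mul_div_cancel_left₀ _ hpi] at h
  have h2 := h.neg
  have h3 : (fun x : ℝ => -((Real.log ∘ Real.sin) (Real.pi * x))) = ls := by
    funext x
    simp [ls, Real.log_abs]
  have h4 : (-fun x : ℝ => ((Real.log ∘ Real.sin) (Real.pi * x))) = ls := by
    rw [← h3]; rfl
  rw [← h4]
  exact h2

/-- For almost every `x`, the products of sines along a rotation orbit decay at most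
exponentially. -/
lemma ae_prod_lower (θ : ℝ) :
    ∀ᵐ x : ℝ, ∃ C : ℝ, 0 ≤ C ∧ ∀ m : ℕ,
      Real.exp (-(C * m)) ≤ ∏ j ∈ Finset.range m, |Real.sin (Real.pi * (x + j * θ))| := by
  have h1 := ae_linear ls_periodic ls_measurable ls_integrable ls_nonneg θ
  have h2 : ∀ᵐ x : ℝ, ∀ j : ℕ, Real.sin (Real.pi * (x + j * θ)) ≠ 0 := by
    rw [ae_all_iff]
    intro j
    have hc : (Set.range fun n : ℤ => (n : ℝ) - j * θ).Countable := Set.countable_range _
    have := hc.ae_notMem (volume : Measure ℝ)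
    filter_upwards [this] with x hx hcon
    apply hx
    rw [Real.sin_eq_zero_iff] at hcon
    obtain ⟨n, hn⟩ := hcon
    refine ⟨n, ?_⟩
    have h3 : (n:ℝ) = x + j * θ := by
      have h4 : Real.pi * ((n:ℝ) - (x + j * θ)) = 0 := by linarith
      rcases mul_eq_zero.mp h4 with h5 | h5
      · exact absurd h5 Real.pi_ne_zero
      · linarith
    simp only
    linarith
  filter_upwards [h1, h2] with x hx1 hx2
  obtain ⟨C, hC, hx⟩ := hx1
  refine ⟨C, hC, fun m => ?_⟩
  have h3 : ∏ j ∈ Finset.range m, |Real.sin (Real.pi * (x + j * θ))| =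
      Real.exp (-(bs ls θ m x)) := by
    unfold bs ls
    rw [← Finset.sum_neg_distrib, Real.exp_sum]
    apply Finset.prod_congr rfl
    intro j _
    rw [neg_neg, Real.exp_log (abs_pos.mpr (hx2 j))]
  rw [h3]
  apply Real.exp_le_exp.mpr
  have := hx m
  linarith


/-! ### The coefficients -/

/-- The coefficient `a_{m,n}` (with `Γ` at a pole read as `0`, so that `1/Γ = 0` there). -/
noncomputable def coefA (α ρ : ℝ) (m n : ℕ) : ℝ :=
  (-1) ^ (m + n) / (Real.Gamma (1 - ρ - n - m / α) * Real.Gamma (α * ρ + m + α * n)) *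
    (∏ j ∈ Finset.Icc 1 m,
      Real.sin (Real.pi / α * (α * ρ + j - 1)) / Real.sin (Real.pi * j / α)) *
    (∏ j ∈ Finset.Icc 1 n,
      Real.sin (Real.pi * α * (ρ + j - 1)) / Real.sin (Real.pi * α * j))

/-- The coefficient `b_{m,n}` (the formula of the problem; at the countably many `ρ` at which a
Gamma factor of the quotient is evaluated at a pole, Mathlib's `Γ = 0` is used, which is
irrelevant for Lebesgue measure). -/
noncomputable def coefB (α ρ : ℝ) (m n : ℕ) : ℝ :=
  Real.Gamma (1 - ρ - n - m / α) * Real.Gamma (α * ρ + m + α * n) /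
    (Real.Gamma (1 + n + m / α) * Real.Gamma (-m - α * n)) * coefA α ρ m n

/-- The `(m,n)` term of the series attached to `(α, ρ)`, at the point `x`. -/
noncomputable def term (α ρ x : ℝ) (p : ℕ × ℕ) : ℝ :=
  if α < 1 then x ^ (-1 - α) * (coefB α ρ p.1 (p.2 + 1) * x ^ (-(p.1 : ℝ) - α * p.2))
  else x ^ (α * ρ - 1) * (coefA α ρ p.1 p.2 * x ^ ((p.1 : ℝ) + α * p.2))

/-- The series attached to `(α, ρ)` converges absolutely: for every `x > 0` the double sum of
the absolute values of its terms is finite. -/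
def ConvergesAbsolutely (α ρ : ℝ) : Prop :=
  ∀ x : ℝ, 0 < x → Summable fun p : ℕ × ℕ => |term α ρ x p|

/-! ### Domination up to exponential factors -/

/-- `u ≤ exp(C(m+n+1)) v` for some constant `C ≥ 0`. -/
def Dom (u v : ℕ → ℕ → ℝ) : Prop :=
  ∃ C : ℝ, 0 ≤ C ∧ ∀ m n : ℕ, u m n ≤ Real.exp (C * ((m : ℝ) + n + 1)) * v m n

lemma Dom.mul {u1 u2 v1 v2 : ℕ → ℕ → ℝ} (h1 : Dom u1 v1) (h2 : Dom u2 v2)
    (hu2 : ∀ m n, 0 ≤ u2 m n) (hv1 : ∀ m n, 0 ≤ v1 m n) :
    Dom (fun m n => u1 m n * u2 m n) (fun m n => v1 m n * v2 m n) := by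
  obtain ⟨C1, hC1, h1⟩ := h1
  obtain ⟨C2, hC2, h2⟩ := h2
  refine ⟨C1 + C2, by positivity, fun m n => ?_⟩
  calc u1 m n * u2 m n ≤ (Real.exp (C1 * ((m : ℝ) + n + 1)) * v1 m n) *
        (Real.exp (C2 * ((m : ℝ) + n + 1)) * v2 m n) := by
        apply mul_le_mul (h1 m n) (h2 m n) (hu2 m n)
        exact mul_nonneg (Real.exp_pos _).le (hv1 m n)
    _ = Real.exp ((C1 + C2) * ((m : ℝ) + n + 1)) * (v1 m n * v2 m n) := by
        rw [add_mul C1 C2, Real.exp_add]
        ring

lemma Dom.refl' {u : ℕ → ℕ → ℝ} : Dom u u :=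
  ⟨0, le_rfl, fun m n => by simp⟩

/-- transfer of summability. -/
lemma summable_of_dom {u v : ℕ → ℕ → ℝ} {α : ℝ} (hα : 0 < α) (hu : ∀ m n, 0 ≤ u m n)
    (h : Dom u v)
    (hs : ∀ x : ℝ, 0 < x → Summable fun p : ℕ × ℕ => v p.1 p.2 * x ^ ((p.1 : ℝ) + α * p.2)) :
    ∀ x : ℝ, 0 < x → Summable fun p : ℕ × ℕ => u p.1 p.2 * x ^ ((p.1 : ℝ) + α * p.2) := by
  intro x hx
  obtain ⟨C, hC, h⟩ := h
  set K : ℝ := C * (1 + 1 / α) with hK
  have hK0 : 0 ≤ K := by positivity
  have h1 := (hs (x * Real.exp K) (by positivity)).mul_left (Real.exp C)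
  refine Summable.of_nonneg_of_le ?_ ?_ h1
  · intro p
    exact mul_nonneg (hu _ _) (Real.rpow_nonneg hx.le _)
  · intro p
    rw [Real.mul_rpow hx.le (Real.exp_pos _).le, ← Real.exp_mul]
    have hxp : 0 ≤ x ^ ((p.1 : ℝ) + α * p.2) := Real.rpow_nonneg hx.le _
    have hv : 0 ≤ v p.1 p.2 := by
      have := (hu p.1 p.2).trans (h p.1 p.2)
      exact (mul_nonneg_iff_of_pos_left (Real.exp_pos _)).mp this
    have h2 : Real.exp (C * ((p.1 : ℝ) + p.2 + 1)) ≤
        Real.exp C * Real.exp (K * ((p.1 : ℝ) + α * p.2)) := by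
      rw [← Real.exp_add]
      apply Real.exp_le_exp.mpr
      have h3 : K * ((p.1 : ℝ) + α * p.2) =
          C * (p.1 + p.2) + C * (p.1 / α + α * p.2) := by
        rw [hK]
        field_simp
        ring
      have h4 : 0 ≤ C * ((p.1:ℝ) / α + α * p.2) := by positivity
      rw [h3]
      linarith
    calc u p.1 p.2 * x ^ ((p.1 : ℝ) + α * p.2)
        ≤ (Real.exp (C * ((p.1 : ℝ) + p.2 + 1)) * v p.1 p.2) * x ^ ((p.1 : ℝ) + α * p.2) :=
          mul_le_mul_of_nonneg_right (h _ _) hxp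
      _ ≤ ((Real.exp C * Real.exp (K * ((p.1 : ℝ) + α * p.2))) * v p.1 p.2) *
            x ^ ((p.1 : ℝ) + α * p.2) := by
          apply mul_le_mul_of_nonneg_right _ hxp
          exact mul_le_mul_of_nonneg_right h2 hv
      _ = Real.exp C * (v p.1 p.2 * (x ^ ((p.1 : ℝ) + α * p.2) *
            Real.exp (K * ((p.1 : ℝ) + α * p.2)))) := by ring

/-! ### Gamma function bounds -/

lemma gamma_shift {w s : ℝ} (hw : 0 ≤ w) (hs : 0 < s) :
    Real.Gamma (w + s + 2) = (w + s + 1) * ((w + s) * Real.Gamma (w + s)) := by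
  rw [show w + s + 2 = (w + s + 1) + 1 by ring, Real.Gamma_add_one (by positivity),
    Real.Gamma_add_one (by positivity)]

lemma gamma_bounds {s : ℝ} (hs : 0 < s) (hs2 : s < 2) : ∃ C : ℝ, 0 ≤ C ∧ ∀ w : ℝ, 0 ≤ w →
    Real.Gamma (w + s) ≤ Real.exp (C * (w + 1)) * Real.Gamma (w + 2) ∧
    Real.Gamma (w + 2) ≤ Real.exp (C * (w + 1)) * Real.Gamma (w + s) := by
  refine ⟨3 + 1 / s, by positivity, fun w hw => ?_⟩
  have hG2 : 0 < Real.Gamma (w + 2) := Real.Gamma_pos_of_pos (by positivity)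
  have hGs : 0 < Real.Gamma (w + s) := Real.Gamma_pos_of_pos (by positivity)
  have hm1 : Real.Gamma (w + 2) ≤ Real.Gamma (w + s + 2) :=
    Real.Gamma_strictMonoOn_Ici.monotoneOn (by simp; linarith) (by simp; linarith)
      (by linarith)
  have hm2 : Real.Gamma (w + s + 2) ≤ Real.Gamma (w + 4) :=
    Real.Gamma_strictMonoOn_Ici.monotoneOn (by simp; linarith) (by simp; linarith)
      (by linarith)
  have h4 : Real.Gamma (w + 4) = (w + 3) * ((w + 2) * Real.Gamma (w + 2)) := by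
    have := gamma_shift (w := w) (s := 2) hw two_pos
    rw [show w + 2 + 2 = w + 4 by ring, show w + 2 + 1 = w + 3 by ring] at this
    exact this
  have hsh := gamma_shift hw hs
  have hpoly : (w + 3) * (w + 2) ≤ Real.exp (3 * (w + 1)) := by
    have h5 : w + 3 ≤ Real.exp (w + 2) := by
      have := Real.add_one_le_exp (w + 2); linarith
    have h6 : w + 2 ≤ Real.exp (w + 1) := by
      have := Real.add_one_le_exp (w + 1); linarith
    calc (w + 3) * (w + 2) ≤ Real.exp (w + 2) * Real.exp (w + 1) :=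
          mul_le_mul h5 h6 (by positivity) (Real.exp_pos _).le
      _ = Real.exp (2 * w + 3) := by rw [← Real.exp_add]; congr 1; ring
      _ ≤ Real.exp (3 * (w + 1)) := Real.exp_le_exp.mpr (by linarith)
  have hexp : Real.exp ((3 + 1 / s) * (w + 1)) =
      Real.exp (3 * (w + 1)) * Real.exp (1 / s * (w + 1)) := by
    rw [← Real.exp_add]; congr 1; ring
  have hs1 : 1 / s ≤ Real.exp (1 / s * (w + 1)) := by
    have h7 := Real.add_one_le_exp (1 / s * (w + 1))
    have h8 : 0 < 1 / s := by positivity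
    nlinarith
  have hs0 : 1 ≤ Real.exp (1 / s * (w + 1)) := Real.one_le_exp (by positivity)
  constructor
  · -- upper bound
    have h9 : s * Real.Gamma (w + s) ≤ (w + 3) * (w + 2) * Real.Gamma (w + 2) := by
      calc s * Real.Gamma (w + s) ≤ (w + s + 1) * ((w + s) * Real.Gamma (w + s)) := by
            have h10 : s ≤ (w + s + 1) * (w + s) := by nlinarith
            have := mul_le_mul_of_nonneg_right h10 hGs.le
            linarith
        _ = Real.Gamma (w + s + 2) := hsh.symm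
        _ ≤ Real.Gamma (w + 4) := hm2
        _ = (w + 3) * (w + 2) * Real.Gamma (w + 2) := by rw [h4]; ring
    calc Real.Gamma (w + s) = 1 / s * (s * Real.Gamma (w + s)) := by field_simp
      _ ≤ 1 / s * ((w + 3) * (w + 2) * Real.Gamma (w + 2)) :=
          mul_le_mul_of_nonneg_left h9 (by positivity)
      _ ≤ Real.exp (1 / s * (w + 1)) * (Real.exp (3 * (w + 1)) * Real.Gamma (w + 2)) := by
          apply mul_le_mul hs1 _ (by positivity) (Real.exp_pos _).le
          exact mul_le_mul_of_nonneg_right hpoly hG2.le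
      _ = Real.exp ((3 + 1 / s) * (w + 1)) * Real.Gamma (w + 2) := by rw [hexp]; ring
  · calc Real.Gamma (w + 2) ≤ Real.Gamma (w + s + 2) := hm1
      _ = (w + s + 1) * (w + s) * Real.Gamma (w + s) := by rw [hsh]; ring
      _ ≤ (w + 3) * (w + 2) * Real.Gamma (w + s) := by
          apply mul_le_mul_of_nonneg_right _ hGs.le
          apply mul_le_mul <;> linarith
      _ ≤ Real.exp (3 * (w + 1)) * Real.Gamma (w + s) :=
          mul_le_mul_of_nonneg_right hpoly hGs.le
      _ ≤ Real.exp ((3 + 1 / s) * (w + 1)) * Real.Gamma (w + s) := by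
          apply mul_le_mul_of_nonneg_right _ hGs.le
          apply Real.exp_le_exp.mpr
          have : 0 ≤ 1 / s * (w + 1) := by positivity
          linarith


lemma prod_Icc_eq_range (F : ℕ → ℝ) (m : ℕ) :
    ∏ j ∈ Finset.Icc 1 m, F j = ∏ j ∈ Finset.range m, F (j + 1) := by
  induction m with
  | zero => simp
  | succ m ih => rw [Finset.prod_Icc_succ_top (by omega), Finset.prod_range_succ, ih]

/-- The product of sines along a rotation orbit. -/
noncomputable def P (θ x : ℝ) (m : ℕ) : ℝ :=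
  ∏ j ∈ Finset.range m, |Real.sin (Real.pi * (x + j * θ))|

lemma P_nonneg (θ x : ℝ) (m : ℕ) : 0 ≤ P θ x m :=
  Finset.prod_nonneg fun _ _ => abs_nonneg _

lemma P_le_one (θ x : ℝ) (m : ℕ) : P θ x m ≤ 1 :=
  Finset.prod_le_one (fun _ _ => abs_nonneg _) fun _ _ => Real.abs_sin_le_one _

lemma P_succ (θ x : ℝ) (m : ℕ) :
    P θ x (m + 1) = P θ x m * |Real.sin (Real.pi * (x + m * θ))| := by
  unfold P; rw [Finset.prod_range_succ]

/-- The denominators. -/
noncomputable def D (α : ℝ) (m : ℕ) : ℝ := ∏ j ∈ Finset.Icc 1 m, |Real.sin (Real.pi * j / α)|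
noncomputable def E (α : ℝ) (n : ℕ) : ℝ := ∏ j ∈ Finset.Icc 1 n, |Real.sin (Real.pi * α * j)|

lemma D_nonneg (α : ℝ) (m : ℕ) : 0 ≤ D α m := Finset.prod_nonneg fun _ _ => abs_nonneg _
lemma E_nonneg (α : ℝ) (m : ℕ) : 0 ≤ E α m := Finset.prod_nonneg fun _ _ => abs_nonneg _

lemma abs_coefA {α ρ : ℝ} (hα : 0 < α) (m n : ℕ) :
    |coefA α ρ m n| = 1 / (|Real.Gamma (1 - ρ - n - m / α)| *
      |Real.Gamma (α * ρ + m + α * n)|) * (P (1 / α) ρ m / D α m) *
      (P α (α * ρ) n / E α n) := by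
  unfold coefA
  rw [abs_mul, abs_mul, abs_div, abs_mul, abs_pow, abs_neg, abs_one, one_pow,
    Finset.abs_prod, Finset.abs_prod]
  congr 1
  · congr 1
    simp only [abs_div]
    rw [Finset.prod_div_distrib]
    unfold D P
    congr 1
    rw [prod_Icc_eq_range]
    apply Finset.prod_congr rfl
    intro j _
    congr 2
    push_cast
    field_simp
    ring
  · simp only [abs_div]
    rw [Finset.prod_div_distrib]
    unfold E P
    congr 1
    rw [prod_Icc_eq_range]
    apply Finset.prod_congr rfl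
    intro j _
    congr 2
    push_cast
    ring

/-- reflection -/
lemma inv_gamma {α ρ : ℝ} (hα : 0 < α) (hρ : 0 < ρ) (m n : ℕ) :
    1 / |Real.Gamma (1 - ρ - n - m / α)| =
      |Real.sin (Real.pi * (ρ + m * (1 / α)))| * Real.Gamma ((n + m / α) + ρ) / Real.pi := by
  set z : ℝ := (n + m / α) + ρ with hz
  have hz0 : 0 < z := by positivity
  have hG : 0 < Real.Gamma z := Real.Gamma_pos_of_pos hz0
  have h1 : Real.Gamma z * Real.Gamma (1 - z) = Real.pi / Real.sin (Real.pi * z) :=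
    Real.Gamma_mul_Gamma_one_sub z
  have h2 : (1 - ρ - n - m / α : ℝ) = 1 - z := by rw [hz]; ring
  have h3 : |Real.sin (Real.pi * (ρ + m * (1 / α)))| = |Real.sin (Real.pi * z)| := by
    have : Real.pi * z = Real.pi * (ρ + m * (1 / α)) + n * Real.pi := by rw [hz]; ring
    rw [this, Real.sin_add_nat_mul_pi, abs_mul, abs_pow, abs_neg, abs_one, one_pow, one_mul]
  rw [h2, h3]
  have h4 : Real.Gamma (1 - z) = Real.pi / Real.sin (Real.pi * z) / Real.Gamma z := by
    rw [← h1]; field_simp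
  rw [h4, abs_div, abs_div, abs_of_pos Real.pi_pos, abs_of_pos hG]
  have hpi := Real.pi_ne_zero
  rw [one_div, inv_div, div_eq_mul_inv, inv_div]
  ring

lemma dom_gamma {s a b : ℝ} (hs : 0 < s) (hs2 : s < 2) (ha : 0 ≤ a) (hb : 0 ≤ b) :
    Dom (fun m n => Real.Gamma ((a * m + b * n) + s)) (fun m n => Real.Gamma ((a * m + b * n) + 2)) ∧
    Dom (fun m n => Real.Gamma ((a * m + b * n) + 2)) (fun m n => Real.Gamma ((a * m + b * n) + s)) := by
  obtain ⟨C, hC, h⟩ := gamma_bounds hs hs2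
  have key : ∀ m n : ℕ, C * ((a * m + b * n) + 1) ≤ C * (a + b + 1) * ((m : ℝ) + n + 1) := by
    intro m n
    have h1 : (a * m + b * n) + 1 ≤ (a + b + 1) * ((m : ℝ) + n + 1) := by
      have hm : (0:ℝ) ≤ m := Nat.cast_nonneg m
      have hn : (0:ℝ) ≤ n := Nat.cast_nonneg n
      nlinarith [mul_nonneg ha hn, mul_nonneg hb hm]
    calc C * ((a * m + b * n) + 1) ≤ C * ((a + b + 1) * ((m : ℝ) + n + 1)) :=
          mul_le_mul_of_nonneg_left h1 hC
      _ = _ := by ring
  constructor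
  · refine ⟨C * (a + b + 1), by positivity, fun m n => ?_⟩
    have hw : 0 ≤ a * m + b * n := by positivity
    refine (h _ hw).1.trans ?_
    apply mul_le_mul_of_nonneg_right (Real.exp_le_exp.mpr (key m n))
    exact (Real.Gamma_pos_of_pos (by positivity)).le
  · refine ⟨C * (a + b + 1), by positivity, fun m n => ?_⟩
    have hw : 0 ≤ a * m + b * n := by positivity
    refine (h _ hw).2.trans ?_
    apply mul_le_mul_of_nonneg_right (Real.exp_le_exp.mpr (key m n))
    exact (Real.Gamma_pos_of_pos (by positivity)).le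

lemma Dom.inv {u v : ℕ → ℕ → ℝ} (h : Dom u v) (hu : ∀ m n, 0 < u m n) (hv : ∀ m n, 0 < v m n) :
    Dom (fun m n => 1 / v m n) (fun m n => 1 / u m n) := by
  obtain ⟨C, hC, h⟩ := h
  refine ⟨C, hC, fun m n => ?_⟩
  rw [mul_one_div, div_le_div_iff₀ (hv m n) (hu m n)]
  linarith [h m n]

lemma dom_P_le (F : ℕ → ℕ → ℝ) (h : ∀ m n, F m n ≤ 1) : Dom F (fun _ _ => 1) :=
  ⟨0, le_rfl, fun m n => by simpa using h m n⟩

lemma dom_one_P {C : ℝ} (hC : 0 ≤ C) (F : ℕ → ℕ → ℝ)
    (h : ∀ m n : ℕ, Real.exp (-(C * ((m:ℝ) + n + 1))) ≤ F m n) : Dom (fun _ _ => 1) F := by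
  refine ⟨C, hC, fun m n => ?_⟩
  have := mul_le_mul_of_nonneg_left (h m n) (Real.exp_pos (C * ((m:ℝ) + n + 1))).le
  rw [← Real.exp_add, add_neg_cancel, Real.exp_zero] at this
  exact this

/-- The `ρ`-free series. -/
noncomputable def free (α : ℝ) (m n : ℕ) : ℝ :=
  if α < 1 then 1 / (D α m * E α (n + 1) * Real.Gamma (1 + (n + 1 : ℕ) + m / α) *
    |Real.Gamma (-m - α * (n + 1 : ℕ))|)
  else Real.Gamma ((1 / α * m + 1 * n) + 2) * (1 / Real.Gamma ((1 * m + α * n) + 2)) *
    (1 / (Real.pi * D α m * E α n))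

/-- the property holding for almost every `ρ`. -/
def Good (α ρ : ℝ) : Prop :=
  (∃ C : ℝ, 0 ≤ C ∧ ∀ m : ℕ, Real.exp (-(C * m)) ≤ P (1 / α) ρ m) ∧
  (∃ C : ℝ, 0 ≤ C ∧ ∀ m : ℕ, Real.exp (-(C * m)) ≤ P α (α * ρ) m)

lemma ae_good {α : ℝ} (hα : 0 < α) : ∀ᵐ ρ : ℝ, Good α ρ := by
  have h1 := ae_prod_lower (1 / α)
  have h2 := ae_prod_lower α
  have h3 : ∀ᵐ ρ : ℝ, ∃ C : ℝ, 0 ≤ C ∧ ∀ m : ℕ,
      Real.exp (-(C * m)) ≤ ∏ j ∈ Finset.range m, |Real.sin (Real.pi * (α * ρ + j * α))| := by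
    rw [ae_iff] at h2 ⊢
    have h4 := Real.volume_preimage_mul_left hα.ne' {x : ℝ | ¬ ∃ C : ℝ, 0 ≤ C ∧ ∀ m : ℕ,
      Real.exp (-(C * m)) ≤ ∏ j ∈ Finset.range m, |Real.sin (Real.pi * (x + j * α))|}
    rw [h2, mul_zero] at h4
    exact h4
  filter_upwards [h1, h3] with ρ a b
  exact ⟨a, b⟩

lemma dom_big {α ρ : ℝ} (hα : 1 < α) (hα2 : α < 2) (hρ : ρ ∈ Ioo (0:ℝ) 1) (hg : Good α ρ) :
    Dom (fun m n => |coefA α ρ m n|) (free α) ∧ Dom (free α) (fun m n => |coefA α ρ m n|) := by
  have hα0 : 0 < α := by linarith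
  have hρ0 := hρ.1
  have hρ1 := hρ.2
  obtain ⟨⟨C1, hC1, h1⟩, ⟨C2, hC2, h2⟩⟩ := hg
  have hform : (fun m n => |coefA α ρ m n|) = fun m n : ℕ => (P (1 / α) ρ (m + 1) *
      P α (α * ρ) n) * ((Real.Gamma ((1 / α * m + 1 * n) + ρ) *
        (1 / Real.Gamma ((1 * m + α * n) + α * ρ))) * (1 / (Real.pi * D α m * E α n))) := by
    funext m n
    rw [abs_coefA hα0]
    have hG : 0 < Real.Gamma (α * ρ + m + α * n) := Real.Gamma_pos_of_pos (by positivity)
    rw [abs_of_pos hG, ← one_div_mul_one_div, inv_gamma hα0 hρ0, P_succ]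
    rw [show (α * ρ + m + α * n : ℝ) = (1 * m + α * n) + α * ρ by ring,
      show ((n:ℝ) + m / α + ρ) = (1 / α * m + 1 * n) + ρ by ring]
    ring
  have hfree : free α = fun m n : ℕ => (1 * 1 : ℝ) * ((Real.Gamma ((1 / α * m + 1 * n) + 2) *
        (1 / Real.Gamma ((1 * m + α * n) + 2))) * (1 / (Real.pi * D α m * E α n))) := by
    funext m n
    unfold free
    rw [if_neg (by linarith)]
    ring
  have hg1 := dom_gamma (s := ρ) (a := 1 / α) (b := 1) hρ0 (by linarith) (by positivity) zero_le_one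
  have hg2 := dom_gamma (s := α * ρ) (a := 1) (b := α) (by positivity) (by nlinarith) zero_le_one
    hα0.le
  have p1 : ∀ m n : ℕ, 0 < Real.Gamma ((1 / α * m + 1 * n) + ρ) := fun m n =>
    Real.Gamma_pos_of_pos (by positivity)
  have p2 : ∀ m n : ℕ, 0 < Real.Gamma ((1 / α * m + 1 * n) + 2) := fun m n =>
    Real.Gamma_pos_of_pos (by positivity)
  have p3 : ∀ m n : ℕ, 0 < Real.Gamma ((1 * m + α * n) + α * ρ) := fun m n =>
    Real.Gamma_pos_of_pos (by positivity)
  have p4 : ∀ m n : ℕ, 0 < Real.Gamma ((1 * m + α * n) + 2) := fun m n =>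
    Real.Gamma_pos_of_pos (by positivity)
  have p5 : ∀ m n : ℕ, 0 ≤ 1 / (Real.pi * D α m * E α n) := fun m n => by
    have := D_nonneg α m
    have := E_nonneg α n
    have := Real.pi_pos
    positivity
  have i1 := Dom.inv hg2.1 p3 p4
  have i2 := Dom.inv hg2.2 p4 p3
  rw [hform, hfree]
  constructor
  · refine Dom.mul (Dom.mul (dom_P_le _ fun m n => P_le_one _ _ _)
      (dom_P_le _ fun m n => P_le_one _ _ _) (fun m n => P_nonneg _ _ _) (fun _ _ => zero_le_one))
      (Dom.mul (Dom.mul hg1.1 i2 (fun m n => ?_) (fun m n => ?_)) Dom.refl' (fun m n => p5 m n)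
      (fun m n => ?_)) (fun m n => ?_) (fun m n => by norm_num)
    · exact one_div_nonneg.mpr (p3 m n).le
    · exact (p2 m n).le
    · exact mul_nonneg (p2 m n).le (one_div_nonneg.mpr (p4 m n).le)
    · exact mul_nonneg (mul_nonneg (p1 m n).le (one_div_nonneg.mpr (p3 m n).le)) (p5 m n)
  · refine Dom.mul (Dom.mul (dom_one_P hC1 _ fun m n => ?_)
      (dom_one_P hC2 _ fun m n => ?_) (fun m n => zero_le_one) (fun _ _ => P_nonneg _ _ _))
      (Dom.mul (Dom.mul hg1.2 i1 (fun m n => ?_) (fun m n => ?_)) Dom.refl' (fun m n => p5 m n)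
      (fun m n => ?_)) (fun m n => ?_) (fun m n => mul_nonneg (P_nonneg _ _ _) (P_nonneg _ _ _))
    · refine le_trans (Real.exp_le_exp.mpr ?_) (h1 (m + 1))
      push_cast
      have : 0 ≤ C1 * (n:ℝ) := by positivity
      nlinarith
    · refine le_trans (Real.exp_le_exp.mpr ?_) (h2 n)
      have : 0 ≤ C2 * ((m:ℝ) + 1) := by positivity
      nlinarith
    · exact one_div_nonneg.mpr (p4 m n).le
    · exact (p1 m n).le
    · exact mul_nonneg (p1 m n).le (one_div_nonneg.mpr (p3 m n).le)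
    · exact mul_nonneg (mul_nonneg (p2 m n).le (one_div_nonneg.mpr (p4 m n).le)) (p5 m n)

lemma alg_aux {A B U V p d q e : ℝ} (hA : A ≠ 0) (hB : B ≠ 0) :
    A * B / (U * V) * (1 / (A * B) * (p / d) * (q / e)) = p * q * (1 / (d * e * U * V)) := by
  have h : A * B * (1 / (A * B)) = 1 := mul_one_div_cancel (mul_ne_zero hA hB)
  calc A * B / (U * V) * (1 / (A * B) * (p / d) * (q / e)) =
      (A * B * (1 / (A * B))) * ((1 / (U * V)) * (p / d) * (q / e)) := by ring
    _ = p * q * (1 / (d * e * U * V)) := by rw [h]; ring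

lemma dom_small {α ρ : ℝ} (hα0 : 0 < α) (hα1 : α < 1) (hρ : ρ ∈ Ioo (0:ℝ) 1) (hg : Good α ρ) :
    Dom (fun m n => |coefB α ρ m (n + 1)|) (free α) ∧
      Dom (free α) (fun m n => |coefB α ρ m (n + 1)|) := by
  have hρ0 := hρ.1
  have hρ1 := hρ.2
  obtain ⟨⟨C1, hC1, h1⟩, ⟨C2, hC2, h2⟩⟩ := hg
  have hsin : ∀ m : ℕ, |Real.sin (Real.pi * (ρ + m * (1 / α)))| ≠ 0 := by
    intro m hcon
    have h3 := h1 (m + 1)
    rw [P_succ, hcon, mul_zero] at h3
    exact absurd h3 (not_le.mpr (Real.exp_pos _))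
  have hform : (fun m n => |coefB α ρ m (n + 1)|) = fun m n : ℕ => (P (1 / α) ρ m *
      P α (α * ρ) (n + 1)) * (1 / (D α m * E α (n + 1) * Real.Gamma (1 + (n + 1 : ℕ) + m / α) *
    |Real.Gamma (-m - α * (n + 1 : ℕ))|)) := by
    funext m n
    unfold coefB
    rw [abs_mul, abs_coefA hα0, abs_div, abs_mul, abs_mul]
    have hG : Real.Gamma (α * ρ + m + α * (n + 1 : ℕ)) ≠ 0 :=
      (Real.Gamma_pos_of_pos (by positivity)).ne'
    have hG1 : Real.Gamma (1 - ρ - (n + 1 : ℕ) - m / α) ≠ 0 := by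
      intro hcon
      have h4 := inv_gamma hα0 hρ0 m (n + 1)
      rw [hcon, abs_zero, div_zero] at h4
      have h5 : 0 < Real.Gamma (((n + 1 : ℕ) + m / α) + ρ) := Real.Gamma_pos_of_pos (by positivity)
      have h6 := hsin m
      have h7 : |Real.sin (Real.pi * (ρ + m * (1 / α)))| *
        Real.Gamma (((n + 1 : ℕ) + m / α) + ρ) / Real.pi ≠ 0 :=
        div_ne_zero (mul_ne_zero h6 h5.ne') Real.pi_ne_zero
      exact h7 h4.symm
    have hG' := abs_ne_zero.mpr hG
    have hG1' := abs_ne_zero.mpr hG1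
    have hGp : 0 < Real.Gamma (1 + (n + 1 : ℕ) + m / α) := Real.Gamma_pos_of_pos (by positivity)
    rw [abs_of_pos hGp]
    exact alg_aux hG1' hG'
  have hfree : free α = fun m n : ℕ => (1 * 1 : ℝ) * (1 / (D α m * E α (n + 1) *
      Real.Gamma (1 + (n + 1 : ℕ) + m / α) * |Real.Gamma (-m - α * (n + 1 : ℕ))|)) := by
    funext m n
    unfold free
    rw [if_pos hα1]
    ring
  have p5 : ∀ m n : ℕ, 0 ≤ 1 / (D α m * E α (n + 1) *
      Real.Gamma (1 + (n + 1 : ℕ) + m / α) * |Real.Gamma (-m - α * (n + 1 : ℕ))|) := fun m n => by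
    have := D_nonneg α m
    have := E_nonneg α (n + 1)
    have hGp : 0 < Real.Gamma (1 + (n + 1 : ℕ) + m / α) := Real.Gamma_pos_of_pos (by positivity)
    positivity
  rw [hform, hfree]
  constructor
  · exact Dom.mul (Dom.mul (dom_P_le _ fun m n => P_le_one _ _ _)
      (dom_P_le _ fun m n => P_le_one _ _ _) (fun m n => P_nonneg _ _ _) (fun _ _ => zero_le_one))
      Dom.refl' (fun m n => p5 m n) (fun m n => by norm_num)
  · refine Dom.mul (Dom.mul (dom_one_P hC1 _ fun m n => ?_)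
      (dom_one_P hC2 _ fun m n => ?_) (fun m n => zero_le_one) (fun _ _ => P_nonneg _ _ _))
      Dom.refl' (fun m n => p5 m n) (fun m n => mul_nonneg (P_nonneg _ _ _) (P_nonneg _ _ _))
    · refine le_trans (Real.exp_le_exp.mpr ?_) (h1 m)
      have : 0 ≤ C1 * ((n:ℝ) + 1) := by positivity
      nlinarith
    · refine le_trans (Real.exp_le_exp.mpr ?_) (h2 (n + 1))
      push_cast
      have : 0 ≤ C2 * (m:ℝ) := by positivity
      nlinarith

lemma summable_iff_of_dom {u v : ℕ → ℕ → ℝ} {α : ℝ} (hα : 0 < α) (hu : ∀ m n, 0 ≤ u m n)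
    (hv : ∀ m n, 0 ≤ v m n) (h : Dom u v) (h' : Dom v u) :
    (∀ x : ℝ, 0 < x → Summable fun p : ℕ × ℕ => u p.1 p.2 * x ^ ((p.1 : ℝ) + α * p.2)) ↔
    (∀ x : ℝ, 0 < x → Summable fun p : ℕ × ℕ => v p.1 p.2 * x ^ ((p.1 : ℝ) + α * p.2)) :=
  ⟨summable_of_dom hα hv h', summable_of_dom hα hu h⟩

lemma free_nonneg (α : ℝ) (hα0 : 0 < α) (m n : ℕ) : 0 ≤ free α m n := by
  unfold free
  have := D_nonneg α m
  have := E_nonneg α (n + 1)
  have := E_nonneg α n
  have hGp : 0 < Real.Gamma (1 + (n + 1 : ℕ) + m / α) := Real.Gamma_pos_of_pos (by positivity)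
  have p2 : 0 < Real.Gamma ((1 / α * m + 1 * n) + 2) := Real.Gamma_pos_of_pos (by positivity)
  have p4 : 0 < Real.Gamma ((1 * m + α * n) + 2) := Real.Gamma_pos_of_pos (by positivity)
  have := Real.pi_pos
  split_ifs <;> positivity

/-- For almost every `ρ`, absolute convergence is equivalent to a `ρ`-free condition. -/
lemma conv_iff {α ρ : ℝ} (hα : (0 < α ∧ α < 1) ∨ (1 < α ∧ α < 2)) (hρ : ρ ∈ Ioo (0:ℝ) 1)
    (hg : Good α ρ) : ConvergesAbsolutely α ρ ↔
      ∀ x : ℝ, 0 < x → Summable fun p : ℕ × ℕ => free α p.1 p.2 * x ^ ((p.1 : ℝ) + α * p.2) := by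
  rcases hα with ⟨hα0, hα1⟩ | ⟨hα1, hα2⟩
  · have hd := dom_small hα0 hα1 hρ hg
    rw [← summable_iff_of_dom hα0 (fun m n => abs_nonneg _) (free_nonneg α hα0) hd.1 hd.2]
    have hterm : ∀ x : ℝ, 0 < x → (fun p : ℕ × ℕ => |term α ρ x p|) = fun p : ℕ × ℕ =>
        x ^ (-1 - α) * (|coefB α ρ p.1 (p.2 + 1)| * (x⁻¹) ^ ((p.1 : ℝ) + α * p.2)) := by
      intro x hx
      funext p
      unfold term
      rw [if_pos hα1, abs_mul, abs_mul, abs_of_nonneg (Real.rpow_nonneg hx.le _),
        abs_of_nonneg (Real.rpow_nonneg hx.le _), Real.inv_rpow hx.le, ← Real.rpow_neg hx.le]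
      congr 3
      ring
    constructor
    · intro h x hx
      have h1 := h x⁻¹ (by positivity)
      rw [hterm _ (by positivity), inv_inv] at h1
      have hpos : (0:ℝ) < x⁻¹ ^ (-1 - α) := Real.rpow_pos_of_pos (by positivity) _
      exact (summable_mul_left_iff hpos.ne').mp h1
    · intro h x hx
      rw [hterm x hx]
      exact (h x⁻¹ (by positivity)).mul_left _
  · have hα0 : 0 < α := by linarith
    have hd := dom_big hα1 hα2 hρ hg
    rw [← summable_iff_of_dom hα0 (fun m n => abs_nonneg _) (free_nonneg α hα0) hd.1 hd.2]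
    have hterm : ∀ x : ℝ, 0 < x → (fun p : ℕ × ℕ => |term α ρ x p|) = fun p : ℕ × ℕ =>
        x ^ (α * ρ - 1) * (|coefA α ρ p.1 p.2| * x ^ ((p.1 : ℝ) + α * p.2)) := by
      intro x hx
      funext p
      unfold term
      rw [if_neg (by linarith), abs_mul, abs_mul, abs_of_nonneg (Real.rpow_nonneg hx.le _),
        abs_of_nonneg (Real.rpow_nonneg hx.le _)]
    constructor
    · intro h x hx
      have h1 := h x hx
      rw [hterm _ hx] at h1
      have hpos : (0:ℝ) < x ^ (α * ρ - 1) := Real.rpow_pos_of_pos hx _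
      exact (summable_mul_left_iff hpos.ne').mp h1
    · intro h x hx
      rw [hterm x hx]
      exact (h x hx).mul_left _

/-- The set of `ρ ∈ (0,1)` at which the series converges absolutely. -/
def convSet (α : ℝ) : Set ℝ := {ρ | ρ ∈ Ioo (0:ℝ) 1 ∧ ConvergesAbsolutely α ρ}

/-- The set of `ρ ∈ (0,1)` at which the series does not converge absolutely. -/
def divSet (α : ℝ) : Set ℝ := {ρ | ρ ∈ Ioo (0:ℝ) 1 ∧ ¬ ConvergesAbsolutely α ρ}

theorem zero_one (α : ℝ) (hα : (0 < α ∧ α < 1) ∨ (1 < α ∧ α < 2)) :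
    (volume (convSet α) = 0 ∧ volume (divSet α) = 1) ∨
      (volume (convSet α) = 1 ∧ volume (divSet α) = 0) := by
  have hα0 : 0 < α := by rcases hα with h | h <;> linarith [h.1]
  have hI : volume (Ioo (0:ℝ) 1) = 1 := by simp
  have hae := ae_good hα0
  rw [ae_iff] at hae
  by_cases hfree : ∀ x : ℝ, 0 < x →
      Summable fun p : ℕ × ℕ => free α p.1 p.2 * x ^ ((p.1 : ℝ) + α * p.2)
  · right
    have h0 : volume (divSet α) = 0 := by
      refine measure_mono_null ?_ hae
      intro ρ hρ hg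
      exact hρ.2 ((conv_iff hα hρ.1 hg).mpr hfree)
    refine ⟨?_, h0⟩
    apply le_antisymm
    · rw [← hI]; exact measure_mono fun ρ hρ => hρ.1
    · rw [← hI]
      calc volume (Ioo (0:ℝ) 1) ≤ volume (convSet α ∪ divSet α) := by
            apply measure_mono
            intro ρ hρ
            by_cases h : ConvergesAbsolutely α ρ
            · exact Or.inl ⟨hρ, h⟩
            · exact Or.inr ⟨hρ, h⟩
        _ ≤ volume (convSet α) + volume (divSet α) := measure_union_le _ _
        _ = volume (convSet α) := by rw [h0, add_zero]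
  · left
    have h0 : volume (convSet α) = 0 := by
      refine measure_mono_null ?_ hae
      intro ρ hρ hg
      exact hfree ((conv_iff hα hρ.1 hg).mp hρ.2)
    refine ⟨h0, ?_⟩
    apply le_antisymm
    · rw [← hI]; exact measure_mono fun ρ hρ => hρ.1
    · rw [← hI]
      calc volume (Ioo (0:ℝ) 1) ≤ volume (convSet α ∪ divSet α) := by
            apply measure_mono
            intro ρ hρ
            by_cases h : ConvergesAbsolutely α ρ
            · exact Or.inl ⟨hρ, h⟩
            · exact Or.inr ⟨hρ, h⟩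
        _ ≤ volume (convSet α) + volume (divSet α) := measure_union_le _ _
        _ = volume (divSet α) := by rw [h0, zero_add]

/-- Zero-one law: for every irrational `α ∈ (0,1) ∪ (1,2)`, the series converges absolutely for
almost every `ρ ∈ (0,1)` or for almost no `ρ ∈ (0,1)`; so no irrational `α` has both sets of
positive measure. -/
theorem result :
    (∀ α : ℝ, Irrational α → α ∈ Ioo (0:ℝ) 1 ∪ Ioo (1:ℝ) 2 →
      (volume (convSet α) = 0 ∧ volume (divSet α) = 1) ∨
      (volume (convSet α) = 1 ∧ volume (divSet α) = 0)) ∧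
    ¬ ∃ α : ℝ, Irrational α ∧ α ∈ Ioo (0:ℝ) 1 ∪ Ioo (1:ℝ) 2 ∧
      0 < volume (convSet α) ∧ 0 < volume (divSet α) := by
  have h : ∀ α : ℝ, Irrational α → α ∈ Ioo (0:ℝ) 1 ∪ Ioo (1:ℝ) 2 →
      (volume (convSet α) = 0 ∧ volume (divSet α) = 1) ∨
      (volume (convSet α) = 1 ∧ volume (divSet α) = 0) := by
    intro α _ hα
    exact zero_one α (hα.imp (fun h => ⟨h.1, h.2⟩) (fun h => ⟨h.1, h.2⟩))
  refine ⟨h, ?_⟩
  rintro ⟨α, hirr, hα, h1, h2⟩
  rcases h α hirr hα with h3 | h3
  · exact h1.ne' h3.1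
  · exact h2.ne' h3.2

end Pool.Agent.Results.MP_8ec8f8_pr.ZeroOneLaw
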